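import Pool.Agent.H5.DL1

namespace Pool.Agent.Results.MP_f4335c_lc.Yes
open Pool.Agent.H5.DK

theorem result : ∀ k : ℕ, 3 ≤ k → ∀ (s0 : St ℝ k) (A : List ℝ → St ℝ k), Online s0 A →
    ∀ C : ℝ, Competitive s0 A C → (k : ℝ) ≤ C :=
  fun _ hk s0 A hA C hC => lower hk s0 A hA C hC

end Pool.Agent.Results.MP_f4335c_lc.Yes
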